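import Pool.Agent.Helper48.WeissJ.Goals

/-!
MP_6b0aee_an (Weiss), joint version, packet CMP: a link gives the comparison of the rates.
-/

open Set Filter Topology

namespace Pool.Agent.Helper12.WeissCMP

open Pool.Agent.Helper48.WeissJ
open Pool.Agent.Helper38.Weiss (Conf Sym)

universe u

theorem cmp : CMP.{u} := by
  classical
  intro X _ _ F C U hlink
  obtain ⟨-, -, Λ, _, q, p, β, γ, D, R, hq, hPB, hβ, hlt, -, hSym, hUD, ⟨K, hK⟩, -, -, hRC,
    ⟨T₀, L, N, ν, c, hT₀, hN, hc, -⟩⟩ := hlink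
  obtain ⟨x₀⟩ := (inferInstance : Nonempty X)
  have hNpos : 0 < N := lt_of_le_of_lt (Nat.zero_le _) (c x₀).2
  have hN1 : (1 : ℝ) ≤ N := by exact_mod_cast hNpos
  have hT₀' : (0 : ℝ) < T₀ := by exact_mod_cast hT₀
  have hlogN : Real.log N ≤ γ * T₀ := by
    have := Real.log_le_log (by linarith) hN
    rwa [Real.log_exp] at this
  have hlogN0 : 0 ≤ Real.log N := Real.log_nonneg hN1
  have hγ : 0 ≤ γ := by
    by_contra hcon
    have : γ * T₀ < 0 := mul_neg_of_neg_of_pos (not_le.1 hcon) hT₀'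
    linarith
  refine ⟨γ, fun η hη => ?_⟩
  obtain ⟨N₁, hN₁⟩ := exists_nat_ge ((γ * T₀) / η)
  obtain ⟨N₂, hN₂⟩ := exists_nat_ge (Real.log K / η)
  refine ⟨max N₁ N₂, fun T hT => ⟨?_, ?_⟩⟩
  · intro E hE hconf
    have hinj : ∀ x ∈ E, ∀ y ∈ E, (fun k : Fin (T / T₀ + 1) => c (F^[k * T₀] x)) =
        (fun k : Fin (T / T₀ + 1) => c (F^[k * T₀] y)) → x = y := by
      intro x hx y hy hxy
      by_contra hne
      obtain ⟨t, ht, hC⟩ := hconf x hx y hy hne
      have hk : t / T₀ < T / T₀ + 1 := Nat.lt_succ_of_le (Nat.div_le_div_right ht.le)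
      have h1 := congrFun hxy ⟨t / T₀, hk⟩
      have h2 := hRC (hc _ _ h1 (t % T₀) (Nat.mod_lt _ hT₀))
      apply h2
      rw [← Function.iterate_add_apply, ← Function.iterate_add_apply]
      have h3 : t % T₀ + t / T₀ * T₀ = t := by
        rw [mul_comm]; exact Nat.mod_add_div _ _
      simp only [h3]
      exact hC
    have hcard : E.card ≤ N ^ (T / T₀ + 1) := by
      have h1 : E.card ≤ (Finset.univ : Finset (Fin (T / T₀ + 1) → Fin N)).card := by
        refine Finset.card_le_card_of_injOn (fun x => fun k : Fin (T / T₀ + 1) =>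
          c (F^[k * T₀] x)) (fun _ _ => Finset.mem_coe.2 (Finset.mem_univ _)) ?_
        intro x hx y hy hxy
        exact hinj x hx y hy hxy
      simpa using h1
    have hE' : (0 : ℝ) < E.card := by exact_mod_cast hE.card_pos
    have h1 : Real.log E.card ≤ (T / T₀ + 1 : ℕ) * Real.log N := by
      rw [← Real.log_pow]
      refine Real.log_le_log hE' ?_
      exact_mod_cast hcard
    have h2 : ((T / T₀ + 1 : ℕ) : ℝ) * T₀ ≤ T + T₀ := by
      have : (T / T₀ + 1) * T₀ ≤ T + T₀ := by
        have := Nat.div_mul_le_self T T₀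
        rw [Nat.add_mul, Nat.one_mul]
        omega
      exact_mod_cast this
    have h3 : γ * T₀ ≤ η * T := by
      have hTr : (N₁ : ℝ) ≤ T := by exact_mod_cast (le_max_left _ _).trans hT
      have := hN₁.trans hTr
      rw [div_le_iff₀ hη] at this
      linarith
    calc Real.log E.card ≤ (T / T₀ + 1 : ℕ) * Real.log N := h1
      _ ≤ (T / T₀ + 1 : ℕ) * (γ * T₀) := mul_le_mul_of_nonneg_left hlogN (Nat.cast_nonneg _)
      _ = γ * (((T / T₀ + 1 : ℕ) : ℝ) * T₀) := by ring
      _ ≤ γ * (T + T₀) := mul_le_mul_of_nonneg_left h2 hγ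
      _ = γ * T + γ * T₀ := by ring
      _ ≤ (γ + η) * T := by linarith
  · intro S hS hspan
    have hcap : cap F q T univ ≤ ∑ y ∈ S, cap F q T (star F D T y) := by
      refine hq.cap_finset_le S (fun x _ => ?_)
      obtain ⟨y, hy, hnot⟩ := hspan x
      refine ⟨y, hy, fun t ht => ?_⟩
      have h1 : (F^[t] x, F^[t] y) ∈ D := by
        apply hUD
        intro hU
        exact hnot ⟨t, ht, hU⟩
      exact hSym _ _ h1
    have hS' : (0 : ℝ) < S.card := by exact_mod_cast hS.card_pos
    have h1 : Real.exp (p * T) ≤ S.card * (K * Real.exp (β * T)) := by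
      calc Real.exp (p * T) ≤ cap F q T univ := hPB T
        _ ≤ ∑ y ∈ S, cap F q T (star F D T y) := hcap
        _ ≤ ∑ _y ∈ S, K * Real.exp (β * T) := Finset.sum_le_sum (fun y _ => hK T y)
        _ = S.card * (K * Real.exp (β * T)) := by rw [Finset.sum_const, nsmul_eq_mul]
    have hKpos : 0 < K := by
      by_contra hcon
      have h2 : (S.card : ℝ) * (K * Real.exp (β * T)) ≤ 0 :=
        mul_nonpos_of_nonneg_of_nonpos hS'.le
          (mul_nonpos_of_nonpos_of_nonneg (not_lt.1 hcon) (Real.exp_pos _).le)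
      linarith [Real.exp_pos (p * T)]
    have h2 : p * T ≤ Real.log S.card + (Real.log K + β * T) := by
      have := Real.log_le_log (Real.exp_pos _) h1
      rwa [Real.log_exp, Real.log_mul hS'.ne' (by positivity),
        Real.log_mul hKpos.ne' (Real.exp_pos _).ne', Real.log_exp] at this
    have h3 : Real.log K ≤ η * T := by
      have hTr : (N₂ : ℝ) ≤ T := by exact_mod_cast (le_max_right _ _).trans hT
      have := hN₂.trans hTr
      rw [div_le_iff₀ hη] at this
      linarith
    have h4 : (β + γ) * T ≤ p * T := mul_le_mul_of_nonneg_right hlt.le (Nat.cast_nonneg _)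
    linarith

end Pool.Agent.Helper12.WeissCMP
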