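import Pool.Agent.Helper48.WeissJ.Goals

/-!
MP_6b0aee_an (Weiss), joint version, packet PC: capacity bounds for the star bound.
-/

open Set Filter Topology

namespace Pool.Agent.Helper12.WeissPC

open Pool.Agent.Helper48.WeissJ

universe u

variable {X : Type u} {Λ : Type} [TopologicalSpace X] [Fintype Λ] {F : X → X}
  {q : Λ → X → ℝ} {q' : Λ × Bool → X → ℝ} {B : Set X} {D Sh : Set (X × X)}
  {C β M b : ℝ} {L T : ℕ}

theorem qw_proj_le (S : StarData X Λ F q q' B D Sh C β M b L T) (g : ℕ)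
    (w : Fin g → Λ × Bool) (x : X) :
    qw F q' g w x ≤ qw F q g (fun s => (w s).1) x :=
  Finset.prod_le_prod (fun _ _ => S.hq'.nonneg _ _) (fun s _ => S.hle (w s).1 (w s).2 _)

theorem pc1_i (S : StarData X Λ F q q' B D Sh C β M b L T) (Y : Set X) (hY : Y ⊆ B) :
    cap F q' L Y ≤ (2 * (Fintype.card Λ : ℝ)) ^ L * b := by
  unfold cap
  calc ∑ w : Fin L → Λ × Bool, top F q' L w Y
      ≤ ∑ _w : Fin L → Λ × Bool, b :=
        Finset.sum_le_sum (fun w _ => top_le S.hb
          (fun y hy => (qw_proj_le S L w y).trans (S.hlow y (hY hy) _)))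
    _ = (2 * (Fintype.card Λ : ℝ)) ^ L * b := by
        rw [Finset.sum_const, Finset.card_univ, Fintype.card_fun, Fintype.card_prod,
          Fintype.card_bool, Fintype.card_fin, nsmul_eq_mul, mul_comm (Fintype.card Λ) 2]
        push_cast
        ring

theorem pc1_ii (S : StarData X Λ F q q' B D Sh C β M b L T) (g : ℕ) (Y : Set X)
    (hY : ∀ y ∈ Y, ∀ s < g, F^[s] y ∉ B) : cap F q' g Y ≤ cap F q g Y := by
  classical
  unfold cap
  rw [← (Equiv.arrowProdEquivProdArrow (Fin g) (fun _ => Λ) (fun _ => Bool)).symm.sum_comp,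
    Fintype.sum_prod_type]
  refine Finset.sum_le_sum (fun w _ => ?_)
  rw [Finset.sum_eq_single (fun _ => true)]
  · refine top_le (S.hq.top_nonneg g w Y) (fun y hy => ?_)
    refine (qw_proj_le S g _ y).trans ?_
    exact S.hq.le_top hy
  · intro σ _ hσ
    obtain ⟨s, hs⟩ : ∃ s, σ s ≠ true := by
      by_contra hcon
      push Not at hcon
      exact hσ (funext hcon)
    have hs' : σ s = false := by
      cases h : σ s
      · rfl
      · exact absurd h hs
    refine le_antisymm (top_le le_rfl (fun y hy => ?_)) (S.hq'.top_nonneg _ _ _)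
    refine le_of_eq (Finset.prod_eq_zero (Finset.mem_univ s) ?_)
    show q' (w s, σ s) (F^[s] y) = 0
    rw [hs']
    exact S.hB _ _ (hY y hy s s.2)
  · intro h
    exact absurd (Finset.mem_univ _) h

theorem pc1_iii (S : StarData X Λ F q q' B D Sh C β M b L T) :
    ∀ (k : ℕ) (x : X) (Y : Set X), (∀ y ∈ Y, ∀ s < k * T, F^[s] y ∉ B) →
    (∀ y ∈ Y, ∀ j < k, (F^[j * T] x, F^[j * T] y) ∈ Sh) → cap F q (k * T) Y ≤ M ^ k := by
  intro k
  induction k with
  | zero =>
    intro x Y _ _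
    rw [Nat.zero_mul, pow_zero]
    exact cap_zero_le F q Y
  | succ k ih =>
    intro x Y h1 h2
    have h3 : (k + 1) * T = k * T + T := Nat.succ_mul k T
    rw [h3, pow_succ]
    refine (S.hq.cap_add_le (Z := {z | (F^[k * T] x, z) ∈ Sh ∧ z ∉ B})
      (fun y hy => ⟨h2 y hy k (Nat.lt_succ_self k), h1 y hy _ ?_⟩)).trans ?_
    · rw [h3]
      have := S.hT
      omega
    · refine mul_le_mul (ih x Y (fun y hy s hs => h1 y hy s ?_)
        (fun y hy j hj => h2 y hy j (hj.trans (Nat.lt_succ_self k)))) (S.hSh _)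
        (S.hq.cap_nonneg _ _) (pow_nonneg S.hM _)
      rw [h3]
      omega

theorem pc1 : PC1.{u} := by
  intro X Λ _ _ F q q' B D Sh C β M b L T S
  exact ⟨fun Y hY => pc1_i S Y hY, fun g Y hY => pc1_ii S g Y hY, pc1_iii S⟩

theorem pc2_a (S : StarData X Λ F q q' B D Sh C β M b L T) (x : X) (s : ℕ) (Y : Set X)
    (hY : ∀ y ∈ Y, ∀ i < s, (F^[i] x, F^[i] y) ∈ D ∧ F^[i] y ∉ B) :
    cap F q' s Y ≤ C * Real.exp (β * s) :=
  (pc1_ii S s Y (fun y hy i hi => (hY y hy i hi).2)).trans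
    ((S.hq.cap_mono (fun y hy i hi => (hY y hy i hi).1)).trans (S.hD s x))

theorem pc2_c_aux (S : StarData X Λ F q q' B D Sh C β M b L T) (x : X) (u m : ℕ) (Z : Set X)
    (h1 : ∀ y ∈ Z, ∀ i < u + m * T, F^[i] y ∉ B)
    (h2 : ∀ y ∈ Z, ∀ k < m, (F^[u + k * T] x, F^[u + k * T] y) ∈ Sh) :
    cap F q (u + m * T) Z ≤ (Fintype.card Λ : ℝ) ^ u * M ^ m := by
  refine (S.hq.cap_add_le (Z := F^[u] '' Z) (fun y hy => ⟨y, hy, rfl⟩)).trans ?_
  refine mul_le_mul (S.hq.cap_le_pow _ _) ?_ (S.hq.cap_nonneg _ _) (by positivity)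
  refine pc1_iii S m (F^[u] x) _ ?_ ?_
  · rintro _ ⟨y, hy, rfl⟩ i hi
    rw [← Function.iterate_add_apply]
    exact h1 y hy _ (by omega)
  · rintro _ ⟨y, hy, rfl⟩ k hk
    rw [← Function.iterate_add_apply, ← Function.iterate_add_apply, add_comm _ u]
    exact h2 y hy k hk

theorem pc2 : PC2.{u} := by
  intro X Λ _ _ F q q' B D Sh C β M b L T S x s Y hY
  have ha := pc2_a S x s Y hY
  have hCe : 0 ≤ C * Real.exp (β * s) := mul_nonneg S.hC (Real.exp_pos _).le
  have hcard : (1 : ℝ) ≤ (Fintype.card Λ : ℝ) := by exact_mod_cast S.hΛ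
  refine ⟨ha, ?_, ?_, ?_⟩
  · intro hB
    refine (S.hq'.cap_add_le (Z := B) hB).trans ?_
    exact mul_le_mul ha (pc1_i S B Subset.rfl) (S.hq'.cap_nonneg _ _) hCe
  · intro u m h1 h2
    refine (S.hq'.cap_add_le (Z := F^[s] '' Y) (fun y hy => ⟨y, hy, rfl⟩)).trans ?_
    refine mul_le_mul ha ?_ (S.hq'.cap_nonneg _ _) hCe
    have h1' : ∀ z ∈ F^[s] '' Y, ∀ i < u + m * T, F^[i] z ∉ B := by
      rintro _ ⟨y, hy, rfl⟩ i hi
      rw [← Function.iterate_add_apply, add_comm i]
      exact h1 y hy i hi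
    refine (pc1_ii S _ _ h1').trans (pc2_c_aux S (F^[s] x) u m _ h1' ?_)
    rintro _ ⟨y, hy, rfl⟩ k hk
    rw [← Function.iterate_add_apply, ← Function.iterate_add_apply, add_comm _ s]
    exact h2 y hy k hk
  · intro u τ hu h1 h2 h3
    refine (S.hq'.cap_add_le (Z := F^[s] '' Y) (fun y hy => ⟨y, hy, rfl⟩)).trans ?_
    refine mul_le_mul ha ?_ (S.hq'.cap_nonneg _ _) hCe
    have h1' : ∀ z ∈ F^[s] '' Y, ∀ i < τ, F^[i] z ∉ B := by
      rintro _ ⟨y, hy, rfl⟩ i hi
      rw [← Function.iterate_add_apply, add_comm i]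
      exact h1 y hy i hi
    have h2' : ∀ z ∈ F^[s] '' Y, F^[τ] z ∈ B := by
      rintro _ ⟨y, hy, rfl⟩
      rw [← Function.iterate_add_apply, add_comm τ]
      exact h2 y hy
    have h3' : ∀ z ∈ F^[s] '' Y, ∀ k : ℕ, u + (k + 1) * T ≤ τ →
        (F^[u + k * T] (F^[s] x), F^[u + k * T] z) ∈ Sh := by
      rintro _ ⟨y, hy, rfl⟩ k hk
      rw [← Function.iterate_add_apply, ← Function.iterate_add_apply, add_comm _ s]
      exact h3 y hy k hk
    refine (S.hq'.cap_add_le (Z := B) h2').trans ?_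
    refine mul_le_mul ?_ (pc1_i S B Subset.rfl) (S.hq'.cap_nonneg _ _)
      (mul_nonneg (by positivity) (pow_nonneg S.hM _))
    refine (pc1_ii S _ _ h1').trans ?_
    generalize F^[s] '' Y = Z at h1' h2' h3'
    have hT := S.hT
    rcases lt_or_ge τ u with hτ | hτ
    · have : (τ - u) / T = 0 := by
        rw [Nat.sub_eq_zero_of_le hτ.le, Nat.zero_div]
      rw [this, pow_zero, mul_one]
      exact (S.hq.cap_le_pow _ _).trans (pow_le_pow_right₀ hcard (by omega))
    · set k0 := (τ - u) / T with hk0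
      set r0 := (τ - u) % T with hr0
      have hr : r0 < T := Nat.mod_lt _ hT
      have hdiv : k0 * T + r0 = τ - u := by
        rw [hk0, hr0, mul_comm]
        exact Nat.div_add_mod _ _
      have hτe : τ = (u + k0 * T) + r0 := by omega
      have hstep : cap F q τ Z ≤ ((Fintype.card Λ : ℝ) ^ u * M ^ k0) *
          (Fintype.card Λ : ℝ) ^ r0 := by
        have h4 := S.hq.cap_add_le (F := F) (g := u + k0 * T) (h := r0) (Y := Z) (Z := univ)
          (fun y _ => mem_univ _)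
        rw [← hτe] at h4
        refine h4.trans (mul_le_mul ?_ (S.hq.cap_le_pow _ _) (S.hq.cap_nonneg _ _)
          (mul_nonneg (by positivity) (pow_nonneg S.hM _)))
        refine pc2_c_aux S (F^[s] x) u k0 Z (fun y hy i hi => h1' y hy i (by omega)) ?_
        intro y hy k hk
        refine h3' y hy k ?_
        have : (k + 1) * T ≤ k0 * T := Nat.mul_le_mul_right T hk
        omega
      refine hstep.trans ?_
      calc ((Fintype.card Λ : ℝ) ^ u * M ^ k0) * (Fintype.card Λ : ℝ) ^ r0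
          = (Fintype.card Λ : ℝ) ^ (u + r0) * M ^ k0 := by rw [pow_add]; ring
        _ ≤ (Fintype.card Λ : ℝ) ^ (2 * T) * M ^ k0 :=
          mul_le_mul_of_nonneg_right (pow_le_pow_right₀ hcard (by omega)) (pow_nonneg S.hM _)

end Pool.Agent.Helper12.WeissPC
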